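import Mathlib
import Pool.Agent.L7h25.LF.Duality

/-!
# Linear forms with full image and small image: the complete characterization, for every ring

Let `R` be any ring with identity, and let `f`, `g` be the coefficient vectors of the linear forms `F` (in
`h ≥ 1` variables) and `G` (in `l ≥ 1` variables). A pattern `P` gives every variable `j` of `G` a slot
`(P j).1` (a variable of `F`) and a class `(P j).2`. The vector of the class `t` is
`σ i = ∑ (P j = (i, t)) g j`. Property (S) holds if and only if for every pattern there is a proper right
ideal `J` of finite index in `R` such that

* `v * f i ∈ J` for all `i` implies `v ∈ J` (for commutative `R`: `J + (f 1, ..., f h) = R`), and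
* if the vector `σ` of a class is a left multiple `v * f` of `f` modulo `J`, then it is zero modulo `J`.

For `R = ℤ` the right ideals in question are `J = n ℤ` with `n ≥ 2`.

Proof. By the starting files (S) holds if and only if for every pattern there is a finite module `U` and for
every class a choice of functions `a t i : U → U` with `∑ i, f i • a t i u = u` such that
`∑ j, g j • a (P j).2 (P j).1 (u (P j).2)` misses a point of `U`.

If so, remove the classes one after the other to get a proper subgroup `M` of `U` which is closed: if all the
sums `∑ i, σ i • a i` with `∑ i, f i • a i = 0` are in `M`, then all the sums `∑ i, σ i • a i` are. Then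
`J = {r | r U ⊆ M}` is the right ideal.

Conversely `J` gives the module `U` of the additive characters of `R / J`, in which the characters vanishing
at `1` are a closed subgroup `M`. The functions for a power `U ^ ι` are given by a theorem on games
(`Pool.Agent.L7h25.LF.win`): if in every situation of a game each player alone could avoid a bad outcome
(if he knew all the inputs), then for many copies of the game played at the same time the players, who
know their own inputs only, have a strategy which avoids the bad outcome in at least one of the copies, for
all inputs. The first player can make the others, in each copy, exclude one of the possible inputs of the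
others; for a suitable code this transmits a list with few candidates for his own input in other copies.
-/

set_option autoImplicit false

open Finset H183R3.LF

universe u

/-- **Complete characterization of property (S), for every ring.** -/
theorem Pool.Agent.Results.MP_0c4eaf_nt.AllRings.result
    (R : Type u) [Ring R] {h l : ℕ} (f : Fin h → R) (g : Fin l → R) (hh : 0 < h) (hl : 0 < l) :
    PropertyS R f g ↔
      ∀ P : Fin l → Fin h × Fin l, ∃ J : AddSubgroup R,
        (∀ x ∈ J, ∀ r : R, x * r ∈ J) ∧ J ≠ ⊤ ∧ Finite (R ⧸ J) ∧
        (∀ v : R, (∀ i, v * f i ∈ J) → v ∈ J) ∧
        ∀ t : Fin l,
          (∃ v : R, ∀ i, ∑ j ∈ Finset.univ.filter (fun j => P j = (i, t)), g j - v * f i ∈ J) →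
            ∀ i, ∑ j ∈ Finset.univ.filter (fun j => P j = (i, t)), g j ∈ J := by
  rw [Pool.Agent.TH282.LF.propertyS_iff R f g hh hl]
  exact forall_congr' fun P => Pool.Agent.L7h25.LF.avoidable_iff f g hl P
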